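import Pool.Agent.R760.PL3

/-! Every `k`-crowded separable metric space has a plastic dense sigma-compact `k`-crowded
subspace. -/

namespace Pool.Agent.Results.MP_4aa5c9_gt.PlasticSubspace

open Set TopologicalSpace

universe u

/-- Every nonempty open set contains an uncountable compact set. -/
def KCrowded (X : Type u) [TopologicalSpace X] : Prop :=
  ∀ U : Set X, IsOpen U → U.Nonempty → ∃ K ⊆ U, IsCompact K ∧ ¬ K.Countable

/-- Every non-expansive bijection of the space onto itself preserves distances. -/
def Plastic (X : Type u) [MetricSpace X] : Prop :=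
  ∀ f : X → X, Function.Bijective f → (∀ x y, dist (f x) (f y) ≤ dist x y) →
    ∀ x y, dist (f x) (f y) = dist x y

theorem result (Y : Type u) [MetricSpace Y] [SeparableSpace Y] (hY : KCrowded Y) :
    ∃ X : Set Y, Plastic X ∧ Dense X ∧ IsSigmaCompact X ∧ KCrowded X := by
  obtain ⟨X, h1, h2, h3, h4⟩ := Pool.Agent.R760.PL.main_sets hY
  exact ⟨X, h4, h1, h2, h3⟩

end Pool.Agent.Results.MP_4aa5c9_gt.PlasticSubspace
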